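import Mathlib
import Pool.Agent.Y36.AC.Ge3
import Pool.Agent.Y36.AC.SufTwo

/-!
The finite p-groups `G` with `|Aut_c(G)| = |γ₂(G)| ^ d(G)`.
-/

set_option autoImplicit false

open scoped commutatorElement

namespace Pool.Agent.Results.MP_932391_al.Classification

/-- the group of class-preserving automorphisms of `G` -/
def AutC (G : Type) [Group G] : Subgroup (MulAut G) where
  carrier := {α | ∀ x : G, IsConj x (α x)}
  mul_mem' := by
    intro α β hα hβ x
    exact (hβ x).trans (hα (β x))
  one_mem' := fun x => IsConj.refl x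
  inv_mem' := by
    intro α hα x
    have h := hα (α⁻¹ x)
    rw [MulAut.apply_inv_self] at h
    exact h.symm

open Pool.Agent.Y36.AC

theorem result (p : ℕ) (G : Type) [Fact p.Prime] [Group G] [Finite G] (hG : IsPGroup p G) :
    Nat.card (AutC G) = Nat.card (commutator G) ^ Group.rank G ↔
      -- (1) class at most two and `x^G = x γ₂(G)` for every `x` outside the Frattini subgroup
      ((∀ c ∈ commutator G, ∀ g : G, ⁅c, g⁆ = 1) ∧
        ∀ x : G, x ∉ frattini G → {y : G | IsConj x y} = {y : G | ∃ c ∈ commutator G, y = x * c})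
      -- (2) two generators, `p` odd, `γ₂(G)` cyclic
      ∨ (Group.rank G = 2 ∧ p ≠ 2 ∧ IsCyclic (commutator G))
      -- (3) two generators, `p = 2`, `γ₂(G)` cyclic and `[γ₂(G), G] ≤ γ₂(G)⁴`
      ∨ (Group.rank G = 2 ∧ p = 2 ∧ IsCyclic (commutator G) ∧
        ∀ c ∈ commutator G, ∀ g : G, ∃ b ∈ commutator G, ⁅c, g⁆ = b ^ 4)
      -- (4) two generators, `p = 2`, `γ₂(G)` is a four-group
      ∨ (Group.rank G = 2 ∧ p = 2 ∧ Nat.card (commutator G) = 4 ∧
        ∀ c ∈ commutator G, c ^ 2 = 1)
      -- (5) two generators, `p = 2`, `γ₂(G)` elementary abelian of order 8, class at most three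
      ∨ (Group.rank G = 2 ∧ p = 2 ∧ Nat.card (commutator G) = 8 ∧
        (∀ c ∈ commutator G, c ^ 2 = 1) ∧ ∀ c ∈ commutator G, ∀ g h : G, ⁅⁅c, g⁆, h⁆ = 1) := by
  classical
  have hAut : Nat.card (AutC G) = Nat.card (Pool.Agent.Helper832.AutC.AutC G) := rfl
  rw [hAut]
  obtain ⟨S, hS, hSc⟩ := Group.rank_spec G
  let e : Fin (Group.rank G) ≃ S := (finCongr hS.symm).trans S.equivFin.symm
  let t : Fin (Group.rank G) → G := fun i => (e i : G)
  have hrange : Set.range t = (S : Set G) := by
    ext g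
    constructor
    · rintro ⟨i, rfl⟩
      exact (e i).2
    · intro hg
      exact ⟨e.symm ⟨g, hg⟩, by simp [t]⟩
  have ht : Subgroup.closure (Set.range t) = ⊤ := by rw [hrange]; exact hSc
  rw [card_eq_iff_full t ht, ← fullD_iff t ht]
  -- pairs
  have hpair : Group.rank G = 2 → ∃ x y : G, Subgroup.closure {x, y} = ⊤ := by
    intro h2
    refine ⟨t ⟨0, by omega⟩, t ⟨1, by omega⟩, ?_⟩
    rw [← ht]
    congr 1
    ext g
    constructor
    · rintro (h | h)
      · exact ⟨_, h.symm⟩
      · exact ⟨_, h.symm⟩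
    · rintro ⟨i, rfl⟩
      have h3 : (i : ℕ) = 0 ∨ (i : ℕ) = 1 := by have := i.2; omega
      rcases h3 with h3 | h3
      · left
        congr 1
        exact Fin.ext h3
      · right
        show t i = _
        congr 1
        exact Fin.ext h3
  have hback : Group.rank G = 2 → (∃ x y : G, Subgroup.closure {x, y} = ⊤ ∧ Full ![x, y]) →
      FullD G (Group.rank G) := by
    rintro h2 ⟨x, y, hxy, hf⟩
    rw [h2]
    exact (fullD_iff ![x, y] (by rw [range_pair]; exact hxy)).mpr hf
  constructor
  · intro hfull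
    have hC : ∀ x : G, x ∉ frattini G →
        {y : G | IsConj x y} = {y : G | ∃ c ∈ commutator G, y = x * c} := by
      intro x hx
      ext y
      constructor
      · intro hy
        exact ⟨x⁻¹ * y, inv_mul_mem_comm hy, by group⟩
      · rintro ⟨c, hc, rfl⟩
        obtain ⟨g, hg⟩ := conj_of_notMem hG hfull t ht x hx (x * c * x⁻¹) (conj_mem_comm x hc)
        refine isConj_iff.mpr ⟨g, ?_⟩
        rw [hg]; group
    by_cases h3 : 3 ≤ Group.rank G
    · left
      refine ⟨?_, hC⟩
      have h4 := ge3_aux h3 (Nat.card G) G rfl hG t ht hfull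
      intro c hc g
      rw [commutatorElement_eq_one_iff_mul_comm]
      exact (Subgroup.mem_center_iff.mp (h4 hc) g).symm
    by_cases h2 : Group.rank G = 2
    · right
      obtain ⟨x, y, hxy⟩ := hpair h2
      rw [h2] at hfull
      by_cases hp2 : p = 2
      · right
        subst hp2
        rcases two_aux (Nat.card G) G rfl hG x y hxy hfull with h | h | h
        · exact Or.inl ⟨h2, rfl, h⟩
        · exact Or.inr (Or.inl ⟨h2, rfl, h⟩)
        · exact Or.inr (Or.inr ⟨h2, rfl, h⟩)
      · left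
        exact ⟨h2, hp2, odd_aux hp2 (Nat.card G) G rfl hG x y hxy hfull⟩
    · left
      refine ⟨?_, hC⟩
      -- at most one generator
      have h4 : ∃ a : G, Subgroup.zpowers a = ⊤ := by
        have h5 : Group.rank G = 0 ∨ Group.rank G = 1 := by omega
        rcases h5 with h5 | h5
        · refine ⟨1, ?_⟩
          rw [eq_top_iff, ← ht, Subgroup.closure_le]
          rintro _ ⟨i, rfl⟩
          exact absurd i.2 (by omega)
        · refine ⟨t ⟨0, by omega⟩, ?_⟩
          rw [eq_top_iff, ← ht, Subgroup.closure_le]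
          rintro _ ⟨i, rfl⟩
          have h6 : i = ⟨0, by omega⟩ := Fin.ext (by have := i.2; simp; omega)
          rw [h6]
          exact Subgroup.mem_zpowers _
      obtain ⟨a, ha⟩ := h4
      intro c _ g
      have h5 : c ∈ Subgroup.zpowers a := by rw [ha]; exact Subgroup.mem_top c
      have h6 : g ∈ Subgroup.zpowers a := by rw [ha]; exact Subgroup.mem_top g
      obtain ⟨i, rfl⟩ := h5
      obtain ⟨j, rfl⟩ := h6
      rw [commutatorElement_eq_one_iff_mul_comm]
      exact (Commute.zpow_zpow (Commute.refl a) i j).eq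
  · rintro (⟨h1, hC⟩ | ⟨h2, hp2, hcyc⟩ | ⟨h2, rfl, hcyc, h4⟩ | ⟨h2, rfl, h⟩ | ⟨h2, rfl, h⟩)
    · rw [fullD_iff t ht]
      refine class2_suf hG (fun a b c => h1 _ (comm_mem a b) c) ?_ t ht
      intro x hx c hc
      have h3 : x * c ∈ {y : G | IsConj x y} := by
        rw [hC x hx]
        exact ⟨c, hc, rfl⟩
      exact h3
    · obtain ⟨x, y, hxy⟩ := hpair h2
      exact hback h2 (cyc_suf hG hxy hcyc (fun h => absurd h hp2))
    · obtain ⟨x, y, hxy⟩ := hpair h2
      exact hback h2 (cyc_suf hG hxy hcyc (fun _ => h4))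
    · obtain ⟨x, y, hxy⟩ := hpair h2
      exact hback h2 (v4_suf hG hxy h)
    · obtain ⟨x, y, hxy⟩ := hpair h2
      exact hback h2 ⟨x, y, hxy, e8_suf hG hxy h⟩

end Pool.Agent.Results.MP_932391_al.Classification
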